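import Pool.Agent.L0h45.AV.Stm

set_option autoImplicit false

/-! # Module CUS: the cusp -/

open Finset
open scoped Classical

namespace Pool.Agent.L0h68.AV.CUS

open Pool.Agent.N874.PP (Tup chA chB gq tau Ev)
open Pool.Agent.N922.PQ (InBox Xset)
open Pool.Agent.L0h45.AV

lemma tau_Bp (p v θ C S u : ℝ) (hv : v ≠ 0) : tau u (Bp p v θ C S) = Bp (p - u) v θ C S := by
  ext <;> simp only [tau, Bp, gq] <;> field_simp <;> ring

lemma toR_tau (u : ℤ) (B : Tup ℤ) : toR (tau u B) = tau (u : ℝ) (toR B) := by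
  ext <;> simp [toR, tau, gq]

lemma tau_neg (u : ℤ) (B : Tup ℤ) : tau (-u) (tau u B) = B := by
  ext <;> simp only [tau, gq] <;> ring

lemma chA_tau (u : ℤ) (B : Tup ℤ) : chA (tau u B) = chA B := by
  simp only [chA, tau, gq]
  ring

lemma chA_toR (B : Tup ℤ) : chA (toR B) = ((chA B : ℤ) : ℝ) := by
  simp [chA, toR]

lemma chB_toR (B : Tup ℤ) : chB (toR B) = ((chB B : ℤ) : ℝ) := by
  simp [chB, toR]

lemma tri5 (a b c d e : ℝ) : |a + b + c + d + e| ≤ |a| + |b| + |c| + |d| + |e| := by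
  have h1 := abs_add_le (a + b + c + d) e
  have h2 := abs_add_le (a + b + c) d
  have h3 := abs_add_le (a + b) c
  have h4 := abs_add_le a b
  linarith

/-- the translates are in a box -/
lemma box_real (X t v U x y c z w : ℝ) (hX : 0 ≤ X) (ht : 0 < t) (hv1 : t ≤ v) (hv2 : v ≤ 2 * t) (hU0 : 0 ≤ U)
    (hUt : U ≤ t) (hx : |x| * v ^ 2 ≤ 36 * X) (hy : |y| * v ≤ 36 * X) (hc : |c| ≤ 36 * X) (hz : |z| ≤ 36 * X * v)
    (hw : |w| ≤ 36 * X * v ^ 2) :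
    |x| * t ^ 2 ≤ 1296 * X ∧ |y - 2 * U * x| * t ≤ 1296 * X ∧ |c + 2 * U * y - 2 * U ^ 2 * x| ≤ 1296 * X ∧
      |z - 6 * U * c - 6 * U ^ 2 * y + 4 * U ^ 3 * x| ≤ 1296 * X * t ∧
      |4 * x * U ^ 4 - 8 * y * U ^ 3 - 12 * c * U ^ 2 + 4 * z * U + w| ≤ 1296 * X * t ^ 2 := by
  have hx0 := abs_nonneg x
  have hy0 := abs_nonneg y
  have hc0 := abs_nonneg c
  have hz0 := abs_nonneg z
  have hw0 := abs_nonneg w
  have hv0 : 0 < v := by linarith
  have t2 : t ^ 2 ≤ v ^ 2 := pow_le_pow_left₀ ht.le hv1 2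
  have v2 : v ^ 2 ≤ 4 * t ^ 2 := by nlinarith
  have U2 : U ^ 2 ≤ t ^ 2 := pow_le_pow_left₀ hU0 hUt 2
  have ex : |x| * t ^ 2 ≤ 36 * X := (mul_le_mul_of_nonneg_left t2 hx0).trans hx
  have ey : |y| * t ≤ 36 * X := (mul_le_mul_of_nonneg_left hv1 hy0).trans hy
  have ez : |z| ≤ 72 * X * t := by nlinarith [mul_nonneg hX ht.le]
  have ew : |w| ≤ 144 * X * t ^ 2 := by nlinarith [mul_nonneg hX (sq_nonneg t)]
  have e1 : U ^ 2 * |x| ≤ 36 * X := by nlinarith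
  have e2 : U * |y| ≤ 36 * X := by nlinarith
  have e3 : U * t * |x| ≤ 36 * X := by
    have : U * t ≤ t ^ 2 := by nlinarith
    nlinarith
  have aU : |U| = U := abs_of_nonneg hU0
  refine ⟨by linarith, ?_, ?_, ?_, ?_⟩
  · have h1 : |y - 2 * U * x| ≤ |y| + 2 * U * |x| := by
      have := abs_sub y (2 * U * x)
      rw [abs_mul, abs_mul, aU, abs_two] at this
      exact this
    calc |y - 2 * U * x| * t ≤ (|y| + 2 * U * |x|) * t := mul_le_mul_of_nonneg_right h1 ht.le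
      _ = |y| * t + 2 * (U * t * |x|) := by ring
      _ ≤ 1296 * X := by linarith
  · have h1 := tri5 c (2 * U * y) (-(2 * U ^ 2 * x)) 0 0
    have h2 : |2 * U * y| = 2 * (U * |y|) := by rw [abs_mul, abs_mul, aU, abs_two]; ring
    have h3 : |-(2 * U ^ 2 * x)| = 2 * (U ^ 2 * |x|) := by rw [abs_neg, abs_mul, abs_mul, abs_pow, aU, abs_two]; ring
    rw [h2, h3, abs_zero] at h1
    have h4 : c + 2 * U * y - 2 * U ^ 2 * x = c + 2 * U * y + -(2 * U ^ 2 * x) + 0 + 0 := by ring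
    rw [h4]
    linarith
  · have h1 := tri5 z (-(6 * U * c)) (-(6 * U ^ 2 * y)) (4 * U ^ 3 * x) 0
    have h2 : |-(6 * U * c)| = 6 * (U * |c|) := by
      rw [abs_neg, abs_mul, abs_mul, aU, abs_of_pos (by norm_num : (0:ℝ) < 6)]; ring
    have h3 : |-(6 * U ^ 2 * y)| = 6 * (U * (U * |y|)) := by
      rw [abs_neg, abs_mul, abs_mul, abs_pow, aU, abs_of_pos (by norm_num : (0:ℝ) < 6)]; ring
    have h5 : |4 * U ^ 3 * x| = 4 * (U * (U ^ 2 * |x|)) := by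
      rw [abs_mul, abs_mul, abs_pow, aU, abs_of_pos (by norm_num : (0:ℝ) < 4)]; ring
    rw [h2, h3, h5, abs_zero] at h1
    have h4 : z - 6 * U * c - 6 * U ^ 2 * y + 4 * U ^ 3 * x =
        z + -(6 * U * c) + -(6 * U ^ 2 * y) + 4 * U ^ 3 * x + 0 := by ring
    rw [h4]
    have f1 : U * |c| ≤ t * (36 * X) := mul_le_mul hUt hc hc0 ht.le
    have f2 : U * (U * |y|) ≤ t * (36 * X) := mul_le_mul hUt e2 (by positivity) ht.le
    have f3 : U * (U ^ 2 * |x|) ≤ t * (36 * X) := mul_le_mul hUt e1 (by positivity) ht.le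
    nlinarith [mul_nonneg hX ht.le]
  · have h1 := tri5 (4 * x * U ^ 4) (-(8 * y * U ^ 3)) (-(12 * c * U ^ 2)) (4 * z * U) w
    have h2 : |4 * x * U ^ 4| = 4 * (U ^ 2 * (U ^ 2 * |x|)) := by
      rw [abs_mul, abs_mul, abs_pow, aU, abs_of_pos (by norm_num : (0:ℝ) < 4)]; ring
    have h3 : |-(8 * y * U ^ 3)| = 8 * (U ^ 2 * (U * |y|)) := by
      rw [abs_neg, abs_mul, abs_mul, abs_pow, aU, abs_of_pos (by norm_num : (0:ℝ) < 8)]; ring
    have h5 : |-(12 * c * U ^ 2)| = 12 * (U ^ 2 * |c|) := by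
      rw [abs_neg, abs_mul, abs_mul, abs_pow, aU, abs_of_pos (by norm_num : (0:ℝ) < 12)]; ring
    have h6 : |4 * z * U| = 4 * (U * |z|) := by
      rw [abs_mul, abs_mul, aU, abs_of_pos (by norm_num : (0:ℝ) < 4)]; ring
    rw [h2, h3, h5, h6] at h1
    have h4 : 4 * x * U ^ 4 - 8 * y * U ^ 3 - 12 * c * U ^ 2 + 4 * z * U + w =
        4 * x * U ^ 4 + -(8 * y * U ^ 3) + -(12 * c * U ^ 2) + 4 * z * U + w := by ring
    rw [h4]
    have f1 : U ^ 2 * (U ^ 2 * |x|) ≤ t ^ 2 * (36 * X) := mul_le_mul U2 e1 (by positivity) (by positivity)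
    have f2 : U ^ 2 * (U * |y|) ≤ t ^ 2 * (36 * X) := mul_le_mul U2 e2 (by positivity) (by positivity)
    have f3 : U ^ 2 * |c| ≤ t ^ 2 * (36 * X) := mul_le_mul U2 hc hc0 (by positivity)
    have f4 : U * |z| ≤ t * (72 * X * t) := mul_le_mul hUt ez hz0 ht.le
    nlinarith [mul_nonneg hX (sq_nonneg t)]

/-- the tuples with `v` in a dyadic interval -/
lemma dyadic (hBDS : S_BDS) (hUNI : S_UNI) (K : ℕ) (a : ℤ) (X T : ℕ) (ha : 0 < a) (haX : a ≤ (X : ℤ) ^ 2) (hT : 1 ≤ T)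
    (hfin : {B : Tup ℤ | Xset 1296 X T ∅ (fun _ => 0) B ∧ chA B = a}.Finite)
    (hK : {B : Tup ℤ | Xset 1296 X T ∅ (fun _ => 0) B ∧ chA B = a}.ncard ≤ K * X ^ 3)
    (S : Finset (Tup ℤ)) (hS : ∀ B ∈ S, B.x ≠ 0 ∧ chA B = a ∧ |chB B| ≤ (X : ℤ) ^ 3 ∧
      ∃ v : ℝ, (T : ℝ) ≤ v ∧ v ≤ 2 * T ∧ Rd B v) : T * S.card ≤ K * X ^ 3 := by
  have haR : (0 : ℝ) < a := by exact_mod_cast ha
  have haXR : (a : ℝ) ≤ (X : ℝ) ^ 2 := by exact_mod_cast haX
  have hX0 : (0 : ℝ) ≤ X := Nat.cast_nonneg _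
  have ht : (0 : ℝ) < T := by exact_mod_cast hT
  have hinj : Set.InjOn (fun q : ℕ × Tup ℤ => tau (q.1 : ℤ) q.2) ↑(range T ×ˢ S) := by
    rintro ⟨u, B⟩ h1 ⟨u', B'⟩ h2 h
    rw [mem_coe, mem_product] at h1 h2
    simp only at h h1 h2
    obtain ⟨-, hA, -, v, hv1, -, p, θ, C, S₀, hFD, hB⟩ := hS B h1.2
    obtain ⟨-, hA', -, v', hv1', -, p', θ', C', S₀', hFD', hB'⟩ := hS B' h2.2
    have hv0 : 0 < v := by linarith
    have hv0' : 0 < v' := by linarith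
    have e1 : toR (tau (u : ℤ) B) = Bp (p - ((u : ℤ) : ℝ)) v θ C S₀ := by
      rw [toR_tau, hB, tau_Bp _ _ _ _ _ _ hv0.ne']
    have e2 : toR (tau (u' : ℤ) B') = Bp (p' - ((u' : ℤ) : ℝ)) v' θ' C' S₀' := by
      rw [toR_tau, hB', tau_Bp _ _ _ _ _ _ hv0'.ne']
    have hpos : 0 < chA (Bp (p - ((u : ℤ) : ℝ)) v θ C S₀) := by
      rw [← e1, chA_toR, chA_tau, hA]
      exact haR
    have heq : Bp (p - ((u : ℤ) : ℝ)) v θ C S₀ = Bp (p' - ((u' : ℤ) : ℝ)) v' θ' C' S₀' := by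
      rw [← e1, ← e2, h]
    obtain ⟨hp, -⟩ := hUNI _ _ _ _ _ _ _ _ _ _ hv0 hv0' hpos heq
    have hd : |((u : ℤ) : ℝ) - ((u' : ℤ) : ℝ)| < 1 := by
      have : ((u : ℤ) : ℝ) - ((u' : ℤ) : ℝ) = p - p' := by linarith
      rw [this, abs_lt]
      obtain ⟨q1, q2, -, -⟩ := hFD
      obtain ⟨q3, q4, -, -⟩ := hFD'
      constructor <;> linarith
    have hu : (u : ℤ) = u' := by
      have : |(u : ℤ) - u'| < 1 := by exact_mod_cast hd
      have := Int.abs_lt_one_iff.1 this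
      omega
    have hu' : u = u' := by exact_mod_cast hu
    subst hu'
    have hBB : B = B' := by
      have := congrArg (tau (-(u : ℤ))) h
      rwa [tau_neg, tau_neg] at this
    rw [hBB]
  have hmaps : ∀ q ∈ range T ×ˢ S, tau (q.1 : ℤ) q.2 ∈ hfin.toFinset := by
    rintro ⟨u, B⟩ hq
    rw [mem_product, mem_range] at hq
    simp only at hq ⊢
    rw [Set.Finite.mem_toFinset]
    obtain ⟨hx0, hA, hb, v, hv1, hv2, p, θ, C, S₀, hFD, hB⟩ := hS B hq.2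
    have hchA : chA (Bp p v θ C S₀) = (a : ℝ) := by rw [← hB, chA_toR, hA]
    have hchB : |chB (Bp p v θ C S₀)| ≤ (X : ℝ) ^ 3 := by
      rw [← hB, chB_toR]
      exact_mod_cast hb
    obtain ⟨-, b1, b2, b3, b4, b5⟩ := hBDS p v θ C S₀ X hFD hX0 (by rw [hchA]; exact haR.le) (by rw [hchA]; exact haXR)
      hchB
    rw [← hB] at b1 b2 b3 b4 b5
    have hU0 : (0 : ℝ) ≤ ((u : ℤ) : ℝ) := by positivity
    have hUt : ((u : ℤ) : ℝ) ≤ T := by
      push_cast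
      exact_mod_cast hq.1.le
    obtain ⟨c1, c2, c3, c4, c5⟩ := box_real X T v ((u : ℤ) : ℝ) (toR B).x (toR B).y (toR B).c (toR B).z (toR B).w hX0 ht hv1
      hv2 hU0 hUt b1 b2 b3 b4 b5
    refine ⟨⟨⟨?_, ?_, ?_, ?_, ?_⟩, hx0, by simp, by simp, by simp⟩, ?_⟩
    · have : |((tau (u : ℤ) B).x : ℝ)| * (T : ℝ) ^ 2 ≤ 1296 * X := by
        simpa [tau, toR] using c1
      exact_mod_cast this
    · have : |((tau (u : ℤ) B).y : ℝ)| * (T : ℝ) ≤ 1296 * X := by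
        simpa [tau, toR] using c2
      exact_mod_cast this
    · have : |((tau (u : ℤ) B).c : ℝ)| ≤ 1296 * X := by
        simpa [tau, toR] using c3
      exact_mod_cast this
    · have : |((tau (u : ℤ) B).z : ℝ)| ≤ 1296 * X * T := by
        simpa [tau, toR] using c4
      exact_mod_cast this
    · have : |((tau (u : ℤ) B).w : ℝ)| ≤ 1296 * X * (T : ℝ) ^ 2 := by
        simpa [tau, toR, gq] using c5
      exact_mod_cast this
    · rw [chA_tau, hA]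
  have hcard : (range T ×ˢ S).card ≤ hfin.toFinset.card := card_le_card_of_injOn _ hmaps hinj
  rw [card_product, card_range, ← Set.ncard_eq_toFinset_card _ hfin] at hcard
  exact hcard.trans hK

theorem t_CUS : Pool.Agent.L0h45.LR.S_BX0 → S_BDS → S_UNI → S_CUS := by
  intro hBX0 hBDS hUNI
  obtain ⟨K, hK⟩ := hBX0 1296
  refine ⟨2 * (K + 1), by positivity, ?_⟩
  intro a X T ha haX hT hX S hS
  have hTR : (0 : ℝ) < T := by exact_mod_cast hT
  have hm : ∀ B ∈ S, ∃ m : ℕ, ∃ v : ℝ, ((2 ^ m * T : ℕ) : ℝ) ≤ v ∧ v ≤ 2 * ((2 ^ m * T : ℕ) : ℝ) ∧ Rd B v := by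
    intro B hB
    obtain ⟨-, -, -, v, hv, hR⟩ := hS B hB
    obtain ⟨m, h1, h2⟩ := exists_nat_pow_near (x := v / T) (y := (2 : ℝ)) ((one_le_div hTR).2 hv) one_lt_two
    refine ⟨m, v, ?_, ?_, hR⟩
    · push_cast
      rwa [le_div_iff₀ hTR] at h1
    · push_cast
      rw [div_lt_iff₀ hTR, pow_succ] at h2
      linarith
  obtain ⟨f, hf⟩ : ∃ f : Tup ℤ → ℕ, ∀ B ∈ S, ∃ v : ℝ, ((2 ^ f B * T : ℕ) : ℝ) ≤ v ∧ v ≤ 2 * ((2 ^ f B * T : ℕ) : ℝ) ∧
      Rd B v := by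
    refine ⟨fun B => if h : B ∈ S then (hm B h).choose else 0, ?_⟩
    intro B hB
    simp only [dif_pos hB]
    exact (hm B hB).choose_spec
  obtain ⟨N, hN⟩ : ∃ N : ℕ, ∀ B ∈ S, f B < N := by
    refine ⟨S.sup f + 1, fun B hB => Nat.lt_succ_of_le (Finset.le_sup hB)⟩
  have hfib : ∀ m : ℕ, ((S.filter (fun B => f B = m)).card : ℝ) ≤ K * (X : ℝ) ^ 3 / T * (1 / 2) ^ m := by
    intro m
    have h1 : 1 ≤ 2 ^ m * T := Nat.mul_pos (by positivity) hT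
    obtain ⟨h2, h3⟩ := hK a ∅ (fun _ => 0) X (2 ^ m * T) h1 hX
    have h4 := dyadic hBDS hUNI K a X (2 ^ m * T) ha haX h1 h2 h3 (S.filter (fun B => f B = m)) (by
      intro B hB
      rw [mem_filter] at hB
      obtain ⟨q1, q2, q3, -⟩ := hS B hB.1
      refine ⟨q1, q2, q3, ?_⟩
      have := hf B hB.1
      rwa [hB.2] at this)
    have h5 : ((2 : ℝ) ^ m * T) * ((S.filter (fun B => f B = m)).card : ℝ) ≤ K * (X : ℝ) ^ 3 := by
      exact_mod_cast h4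
    have h6 : (0 : ℝ) < 2 ^ m * T := by positivity
    calc ((S.filter (fun B => f B = m)).card : ℝ) ≤ K * (X : ℝ) ^ 3 / (2 ^ m * T) := by
          rw [le_div_iff₀ h6]
          linarith
      _ = _ := by
          rw [one_div, inv_pow]
          field_simp
  have hsum : (S.card : ℝ) = ∑ m ∈ range N, ((S.filter (fun B => f B = m)).card : ℝ) := by
    have := card_eq_sum_card_fiberwise (s := S) (t := range N) (f := f) (fun B hB => by
      rw [mem_coe, mem_range]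
      exact hN B hB)
    rw [this]
    push_cast
    rfl
  have hnn : (0 : ℝ) ≤ K * (X : ℝ) ^ 3 / T := by positivity
  calc (S.card : ℝ) = ∑ m ∈ range N, ((S.filter (fun B => f B = m)).card : ℝ) := hsum
    _ ≤ ∑ m ∈ range N, K * (X : ℝ) ^ 3 / T * (1 / 2) ^ m := sum_le_sum fun m _ => hfib m
    _ = K * (X : ℝ) ^ 3 / T * ∑ m ∈ range N, (1 / 2 : ℝ) ^ m := by rw [mul_sum]
    _ ≤ K * (X : ℝ) ^ 3 / T * 2 := by
        apply mul_le_mul_of_nonneg_left _ hnn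
        exact sum_geometric_two_le N
    _ ≤ 2 * (K + 1) * (X : ℝ) ^ 3 / T := by
        have : (0 : ℝ) ≤ (X : ℝ) ^ 3 / T := by positivity
        calc K * (X : ℝ) ^ 3 / T * 2 = 2 * K * ((X : ℝ) ^ 3 / T) := by ring
          _ ≤ 2 * (K + 1) * ((X : ℝ) ^ 3 / T) := mul_le_mul_of_nonneg_right (by linarith) this
          _ = _ := by ring

end Pool.Agent.L0h68.AV.CUS
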