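import Pool.Agent.L0h45.AV.Stm

set_option autoImplicit false

/-! # Module GAM: the number of the `γ` -/

open Finset
open scoped Classical

namespace Pool.Agent.L0h68.AV

open Pool.Agent.N874.PP (Tup chA chB gq tau Ev)
open Pool.Agent.L0h45.LR (tn)
open Pool.Agent.L0h45.AV

/-- one class modulo `g` -/
lemma cls_card (g : ℕ) (hg : 1 ≤ g) (r u : ℤ) (n : ℕ) (s : Finset ℤ)
    (hs : ∀ γ ∈ s, γ ∈ Ioc u (u + n) ∧ (g : ℤ) ∣ γ - r) : (g : ℝ) * (s.card : ℝ) ≤ n + g := by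
  have hg0 : (0 : ℤ) < g := by exact_mod_cast hg
  have h1 := Int.Ioc_filter_modEq_card u (u + n) (r := (g : ℤ)) hg0 r
  have hsub : s ⊆ (Ioc u (u + (n : ℤ))).filter (fun x => x ≡ r [ZMOD (g : ℤ)]) := by
    intro γ hγ
    rw [mem_filter]
    refine ⟨(hs γ hγ).1, ?_⟩
    exact (Int.modEq_iff_dvd.2 (by
      have h := (hs γ hγ).2
      rw [← dvd_neg, neg_sub] at h
      exact h) : γ ≡ r [ZMOD (g : ℤ)])
  have h2 : (s.card : ℤ) ≤
      max (⌊((u + n : ℤ) - r : ℚ) / ((g : ℤ) : ℚ)⌋ - ⌊((u : ℚ) - r) / ((g : ℤ) : ℚ)⌋) 0 := by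
    have h3 : (s.card : ℤ) ≤ (((Ioc u (u + (n : ℤ))).filter (fun x => x ≡ r [ZMOD (g : ℤ)])).card : ℤ) := by
      exact_mod_cast card_le_card hsub
    rw [h1] at h3
    exact h3
  have hgq : (0 : ℚ) < (g : ℚ) := by exact_mod_cast hg
  have h3 : (s.card : ℚ) ≤ (n : ℚ) / g + 1 := by
    have h4 : ((s.card : ℤ) : ℚ) ≤
        ((max (⌊((u + n : ℤ) - r : ℚ) / ((g : ℤ) : ℚ)⌋ - ⌊((u : ℚ) - r) / ((g : ℤ) : ℚ)⌋) 0 : ℤ) : ℚ) := by
      exact_mod_cast h2
    have h5 : ((s.card : ℤ) : ℚ) = (s.card : ℚ) := by push_cast; rfl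
    rw [h5] at h4
    refine h4.trans ?_
    rw [Int.cast_max]
    apply max_le
    · push_cast
      have h6 := Int.floor_le (((u : ℚ) + n - r) / (g : ℚ))
      have h7 := Int.lt_floor_add_one (((u : ℚ) - r) / (g : ℚ))
      have h8 : ((u : ℚ) + n - r) / (g : ℚ) = ((u : ℚ) - r) / g + (n : ℚ) / g := by
        rw [← add_div]
        congr 1
        ring
      linarith
    · push_cast
      positivity
  have h4 : (g : ℚ) * (s.card : ℚ) ≤ n + g := by
    calc (g : ℚ) * (s.card : ℚ) ≤ g * ((n : ℚ) / g + 1) := mul_le_mul_of_nonneg_left h3 hgq.le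
      _ = _ := by field_simp
  exact_mod_cast h4

lemma claim (hR : Pool.Agent.L0h45.LR.S_RHO) (M g₁ g : ℕ) (a bc bz bw x y e : ℤ) (hM : 1 ≤ M) (h1M : g₁ ∣ M)
    (hg : 1 ≤ g) (hcop : Nat.Coprime g M) (h6 : IsCoprime (6 * bc) (g₁ : ℤ)) (hgx : (g : ℤ) ∣ x) (hgy : (g : ℤ) ∣ 2 * y)
    (he : e * M = 3 * bc ^ 2 + 2 * y * bz + x * bw + a) (u : ℤ) (n : ℕ) (s : Finset ℤ)
    (hs : ∀ γ ∈ s, γ ∈ Ioc u (u + n) ∧ (g₁ : ℤ) ∣ 3 * M * γ ^ 2 + 6 * bc * γ + e ∧
      (g : ℤ) ∣ 3 * M * γ ^ 2 + 6 * bc * γ + e) :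
    (g₁ : ℝ) * g * (s.card : ℝ) ≤ rg g * (n + M * g) := by
  have hg1 : 1 ≤ g₁ := Nat.pos_of_dvd_of_pos h1M hM
  have h1le : (g₁ : ℝ) ≤ M := by exact_mod_cast Nat.le_of_dvd hM h1M
  have hMr : (1 : ℝ) ≤ M := by exact_mod_cast hM
  have hgr : (1 : ℝ) ≤ g := by exact_mod_cast hg
  have hg1r : (1 : ℝ) ≤ g₁ := by exact_mod_cast hg1
  obtain ⟨p, q, hpq⟩ := h6
  obtain ⟨k, hk⟩ := h1M
  have hkz : (M : ℤ) = g₁ * k := by exact_mod_cast hk
  have hcl : ∀ γ ∈ s, (g₁ : ℤ) ∣ γ - (-(p * e)) := by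
    intro γ hγ
    have h2 := (hs γ hγ).2.1
    have h3 : (g₁ : ℤ) ∣ 6 * bc * γ + e := by
      have h4 : 6 * bc * γ + e = (3 * M * γ ^ 2 + 6 * bc * γ + e) - g₁ * (3 * k * γ ^ 2) := by
        rw [hkz]
        ring
      rw [h4]
      exact dvd_sub h2 (dvd_mul_right _ _)
    have h5 : γ - (-(p * e)) = p * (6 * bc * γ + e) + g₁ * (q * γ) := by
      have : γ = γ * (p * (6 * bc) + q * g₁) := by rw [hpq, mul_one]
      calc γ - (-(p * e)) = γ * (p * (6 * bc) + q * g₁) + p * e := by rw [← this]; ring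
        _ = _ := by ring
    rw [h5]
    exact dvd_add (dvd_mul_of_dvd_right h3 _) (dvd_mul_right _ _)
  by_cases hg1' : g = 1
  · rw [hg1']
    unfold rg
    rw [if_pos rfl, one_mul]
    push_cast
    rw [mul_one, mul_one]
    have := cls_card g₁ hg1 (-(p * e)) u n s fun γ hγ => ⟨(hs γ hγ).1, hcl γ hγ⟩
    linarith
  · unfold rg
    rw [if_neg hg1']
    have hinj : (s.image (fun γ : ℤ => bc + M * γ)).card = s.card := by
      apply card_image_of_injective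
      intro γ γ' h
      have hM0 : (M : ℤ) ≠ 0 := by exact_mod_cast (by omega : M ≠ 0)
      have : (M : ℤ) * γ = M * γ' := by
        have : bc + (M : ℤ) * γ = bc + M * γ' := h
        linarith
      exact mul_left_cancel₀ hM0 this
    have hcopM : Nat.Coprime g (M * g₁) := Nat.Coprime.mul_right hcop (Nat.Coprime.coprime_dvd_right ⟨k, hk⟩ hcop)
    have hrho := hR g (M * g₁) a (bc + M * (-(p * e))) (bc + M * u) (M * n) hg (Nat.mul_pos hM hg1) hcopM
    have hsub : s.image (fun γ : ℤ => bc + M * γ) ⊆ (Ioc (bc + M * u) (bc + M * u + ((M * n : ℕ) : ℤ))).filter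
        (fun c : ℤ => (((M * g₁ : ℕ)) : ℤ) ∣ c - (bc + M * (-(p * e))) ∧ (g : ℤ) ∣ 3 * c ^ 2 + a) := by
      intro c hc
      rw [mem_image] at hc
      obtain ⟨γ, hγ, rfl⟩ := hc
      have hγ1 := (hs γ hγ).1
      rw [mem_Ioc] at hγ1
      have hM0 : (0 : ℤ) < M := by exact_mod_cast hM
      rw [mem_filter, mem_Ioc]
      refine ⟨⟨?_, ?_⟩, ?_, ?_⟩
      · have := mul_lt_mul_of_pos_left hγ1.1 hM0
        linarith
      · push_cast
        have := mul_le_mul_of_nonneg_left hγ1.2 hM0.le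
        linarith
      · have h7 : bc + M * γ - (bc + M * (-(p * e))) = M * (γ - (-(p * e))) := by ring
        rw [h7]
        push_cast
        exact mul_dvd_mul_left _ (hcl γ hγ)
      · have h8 : 3 * (bc + M * γ) ^ 2 + a = M * (3 * M * γ ^ 2 + 6 * bc * γ + e) - 2 * y * bz - x * bw := by
          linear_combination -he
        rw [h8]
        exact dvd_sub (dvd_sub (dvd_mul_of_dvd_right (hs γ hγ).2.2 _) (dvd_mul_of_dvd_left hgy _))
          (dvd_mul_of_dvd_left hgx _)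
    have h9 : (s.card : ℝ) ≤ 12 * tn g * √(g : ℝ) * (((M * n : ℕ) : ℝ) / (g * ((M * g₁ : ℕ) : ℝ)) + 1) := by
      refine le_trans ?_ hrho
      rw [← hinj]
      exact_mod_cast card_le_card hsub
    have h10 : (((M * n : ℕ) : ℝ) / (g * ((M * g₁ : ℕ) : ℝ)) + 1) = ((n : ℝ) + g * g₁) / (g * g₁) := by
      push_cast
      have : (M : ℝ) ≠ 0 := by linarith
      have : (g : ℝ) ≠ 0 := by linarith
      have : (g₁ : ℝ) ≠ 0 := by linarith
      field_simp
    rw [h10] at h9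
    have hK : (0 : ℝ) ≤ 12 * tn g * √(g : ℝ) := by positivity
    calc (g₁ : ℝ) * g * (s.card : ℝ) ≤
        (g₁ : ℝ) * g * (12 * tn g * √(g : ℝ) * (((n : ℝ) + g * g₁) / (g * g₁))) :=
          mul_le_mul_of_nonneg_left h9 (by positivity)
      _ = 12 * tn g * √(g : ℝ) * ((n : ℝ) + g * g₁) := by
          have : (g : ℝ) ≠ 0 := by linarith
          have : (g₁ : ℝ) ≠ 0 := by linarith
          field_simp
      _ ≤ 12 * tn g * √(g : ℝ) * (n + M * g) := by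
          apply mul_le_mul_of_nonneg_left _ hK
          have : (g : ℝ) * g₁ ≤ g * M := mul_le_mul_of_nonneg_left h1le (by linarith)
          linarith

lemma cop_aux (M g₁ : ℕ) (a : ℤ) (β : Tup ℤ) (x y : ℤ) (hOk : Ok M a β) (hx : (M : ℤ) ∣ x - β.x)
    (hy : (M : ℤ) ∣ y - β.y) (h1M : g₁ ∣ M) (hodd : ¬ 2 ∣ g₁) (h1x : (g₁ : ℤ) ∣ x) (h1y : (g₁ : ℤ) ∣ 2 * y) :
    IsCoprime (6 * β.c) (g₁ : ℤ) := by
  rw [Int.isCoprime_iff_gcd_eq_one, Int.gcd_comm]
  by_contra hne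
  obtain ⟨p, hp, hpd⟩ := Nat.exists_prime_and_dvd hne
  have hp1 : (p : ℤ) ∣ g₁ := (Int.natCast_dvd_natCast.2 hpd).trans (Int.gcd_dvd_left _ _)
  have hp6 : (p : ℤ) ∣ 6 * β.c := (Int.natCast_dvd_natCast.2 hpd).trans (Int.gcd_dvd_right _ _)
  have hpn : p ∣ g₁ := by exact_mod_cast hp1
  have hp2 : p ≠ 2 := by
    rintro rfl
    exact hodd hpn
  have hpM : p ∣ M := hpn.trans h1M
  have hpMz : (p : ℤ) ∣ M := by exact_mod_cast hpM
  have hpp : Prime (p : ℤ) := Nat.prime_iff_prime_int.1 hp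
  have hnd2 : ¬ (p : ℤ) ∣ 2 := by
    intro h
    have : p ∣ 2 := by exact_mod_cast h
    exact hp2 ((Nat.prime_dvd_prime_iff_eq hp Nat.prime_two).1 this)
  have hpy : (p : ℤ) ∣ y := (hpp.dvd_or_dvd (hp1.trans h1y)).resolve_left hnd2
  have hpx : (p : ℤ) ∣ x := hp1.trans h1x
  have hbx : (p : ℤ) ∣ β.x := by
    have : β.x = x - (x - β.x) := by ring
    rw [this]
    exact dvd_sub hpx (hpMz.trans hx)
  have hby : (p : ℤ) ∣ β.y := by
    have : β.y = y - (y - β.y) := by ring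
    rw [this]
    exact dvd_sub hpy (hpMz.trans hy)
  obtain ⟨h3, -, -, hc⟩ := hOk.odd p hp hp2 hpM hbx hby
  have h6 : (6 : ℤ) * β.c = 2 * (3 * β.c) := by ring
  rw [h6] at hp6
  have h7 := (hpp.dvd_or_dvd hp6).resolve_left hnd2
  rcases hpp.dvd_or_dvd h7 with h | h
  · have : p ∣ 3 := by exact_mod_cast h
    exact h3 ((Nat.prime_dvd_prime_iff_eq hp Nat.prime_three).1 this)
  · exact hc h

theorem t_GAM : Pool.Agent.L0h45.LR.S_RHO → S_GAM := by
  intro hR M g₀ g a β x y e hM h2M hOk hx hy hx0 hgcd hg0M hcop he u n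
  have hG0 : Int.gcd x (2 * y) ≠ 0 := by
    intro h
    exact hx0 (Int.gcd_eq_zero_iff.1 h).1
  have hg : 1 ≤ g := by
    rcases Nat.eq_zero_or_pos g with h | h
    · rw [hgcd, h, mul_zero] at hG0
      exact absurd rfl hG0
    · exact h
  have hGx : ((g₀ * g : ℕ) : ℤ) ∣ x := by
    rw [← hgcd]
    exact Int.gcd_dvd_left _ _
  have hGy : ((g₀ * g : ℕ) : ℤ) ∣ 2 * y := by
    rw [← hgcd]
    exact Int.gcd_dvd_right _ _
  push_cast at hGx hGy
  have hgx : (g : ℤ) ∣ x := (dvd_mul_left _ _).trans hGx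
  have hgy : (g : ℤ) ∣ 2 * y := (dvd_mul_left _ _).trans hGy
  have h0x : (g₀ : ℤ) ∣ x := (dvd_mul_right _ _).trans hGx
  have h0y : (g₀ : ℤ) ∣ 2 * y := (dvd_mul_right _ _).trans hGy
  have h2Mz : (2 : ℤ) ∣ M := by exact_mod_cast h2M
  have hgodd : ¬ 2 ∣ g := by
    intro h
    have := Nat.dvd_gcd h h2M
    rw [Nat.Coprime] at hcop
    rw [hcop] at this
    omega
  obtain ⟨s, hsd⟩ : ∃ s, s = (Ioc u (u + n)).filter
    (fun γ : ℤ => (Int.gcd x (2 * y) : ℤ) ∣ 3 * M * γ ^ 2 + 6 * β.c * γ + e) := ⟨_, rfl⟩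
  rw [← hsd]
  have hsG : ∀ γ ∈ s, γ ∈ Ioc u (u + n) ∧ ((g₀ : ℤ) * g) ∣ 3 * M * γ ^ 2 + 6 * β.c * γ + e := by
    intro γ hγ
    rw [hsd, mem_filter, hgcd] at hγ
    push_cast at hγ
    exact hγ
  rcases Int.even_or_odd x with hxe | hxo
  · -- `x` even
    have h2x : (2 : ℤ) ∣ x := hxe.two_dvd
    have h2bx : (2 : ℤ) ∣ β.x := by
      have : β.x = x - (x - β.x) := by ring
      rw [this]
      exact dvd_sub h2x (h2Mz.trans hx)
    obtain ⟨hby, -⟩ := hOk.two h2bx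
    have hy2 : ¬ (2 : ℤ) ∣ y := by
      intro h
      apply hby
      have : β.y = y - (y - β.y) := by ring
      rw [this]
      exact dvd_sub h (h2Mz.trans hy)
    have h2G : 2 ∣ g₀ * g := by
      rw [← hgcd]
      have : (2 : ℤ) ∣ (Int.gcd x (2 * y) : ℤ) := Int.dvd_coe_gcd h2x (dvd_mul_right _ _)
      exact_mod_cast this
    have h2g0 : 2 ∣ g₀ := ((Nat.Prime.dvd_mul Nat.prime_two).1 h2G).resolve_right hgodd
    obtain ⟨g₁, hg1⟩ := h2g0
    have hg1odd : ¬ 2 ∣ g₁ := by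
      rintro ⟨k, hk⟩
      apply hy2
      have h4 : (4 : ℤ) ∣ 2 * y := by
        refine Dvd.dvd.trans ⟨k, ?_⟩ h0y
        rw [hg1, hk]
        push_cast
        ring
      omega
    have h1z : (g₀ : ℤ) = 2 * g₁ := by
      rw [hg1]
      push_cast
      ring
    have h10 : (g₁ : ℤ) ∣ g₀ := ⟨2, by rw [h1z]; ring⟩
    by_cases hee : Even e
    · have hdl : dl x e = 2 := by
        unfold dl
        rw [if_neg (Int.not_odd_iff_even.2 hxe), if_pos hee]
      have hcl := claim hR M g₁ g a β.c β.z β.w x y e hM ((Dvd.intro_left 2 hg1.symm).trans hg0M) hg hcop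
        (cop_aux M g₁ a β x y hOk hx hy ((Dvd.intro_left 2 hg1.symm).trans hg0M) hg1odd (h10.trans h0x) (h10.trans h0y))
        hgx hgy he u n s (fun γ hγ => ⟨(hsG γ hγ).1, h10.trans ((dvd_mul_right _ _).trans (hsG γ hγ).2),
          (dvd_mul_left _ _).trans (hsG γ hγ).2⟩)
      rw [hdl, hg1]
      push_cast
      calc (2 * (g₁ : ℝ)) * g * (s.card : ℝ) = 2 * ((g₁ : ℝ) * g * s.card) := by ring
        _ ≤ 2 * (rg g * (n + M * g)) := by linarith
        _ = _ := by ring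
    · have hs0 : s = ∅ := by
        rw [Finset.eq_empty_iff_forall_notMem]
        intro γ hγ
        apply hee
        have h5 : (2 : ℤ) ∣ 3 * M * γ ^ 2 + 6 * β.c * γ + e := by
          refine Dvd.dvd.trans ?_ (hsG γ hγ).2
          rw [h1z, mul_assoc]
          exact dvd_mul_right _ _
        obtain ⟨k, hk⟩ := h2Mz
        obtain ⟨k', hk'⟩ := h5
        rw [even_iff_two_dvd]
        refine ⟨k' - 3 * k * γ ^ 2 - 3 * β.c * γ, ?_⟩
        rw [hk] at hk'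
        linear_combination hk'
      have hdl : dl x e = 0 := by
        unfold dl
        rw [if_neg (Int.not_odd_iff_even.2 hxe), if_neg hee]
      rw [hs0, hdl]
      simp
  · -- `x` odd
    have hdl : dl x e = 1 := by
      unfold dl
      rw [if_pos hxo]
    have h0odd : ¬ 2 ∣ g₀ := by
      intro h
      have h2x : (2 : ℤ) ∣ x := Dvd.dvd.trans (by exact_mod_cast h) h0x
      rcases hxo with ⟨k, hk⟩
      omega
    have hcl := claim hR M g₀ g a β.c β.z β.w x y e hM hg0M hg hcop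
      (cop_aux M g₀ a β x y hOk hx hy hg0M h0odd h0x h0y)
      hgx hgy he u n s (fun γ hγ => ⟨(hsG γ hγ).1, (dvd_mul_right _ _).trans (hsG γ hγ).2,
        (dvd_mul_left _ _).trans (hsG γ hγ).2⟩)
    rw [hdl, one_mul]
    exact hcl

end Pool.Agent.L0h68.AV
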